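import Pool.Agent.V11247.Nrd.Theta

/-!
# A Boolean predicate of arity 12 whose non-redundancy is `Θ(n^{3/2})`
-/

set_option autoImplicit false

namespace Pool.Agent.Results.MP_49e1e0_lc.ThreeHalves

open Filter Topology Pool.Agent.V11247.Nrd

/-- **Result.** There is a Boolean predicate `P ⊆ {0,1}^{12}` with `NRD(P,n) = Θ(n^{3/2})`. -/
theorem result : ∃ P : Set (Fin 12 → Bool), ∃ c C : ℝ, 0 < c ∧ 0 < C ∧ ∀ᶠ n : ℕ in atTop,
    c * (n : ℝ) ^ ((3 : ℝ) / 2) ≤ NRD P n ∧ (NRD P n : ℝ) ≤ C * (n : ℝ) ^ ((3 : ℝ) / 2) :=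
  ⟨P12, 1 / 400, 15, by norm_num, by norm_num, lower_eventually.and upper_eventually⟩

end Pool.Agent.Results.MP_49e1e0_lc.ThreeHalves
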